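import Pool.Agent.helper98.RPQ.SpecR

/-!
# Row rpq:WXN (MP_07c750_an, project RPQ): the final estimate
-/

set_option autoImplicit false

open scoped MatrixGroups ContDiff Topology UpperHalfPlane ComplexConjugate ENNReal
open UpperHalfPlane MeasureTheory Filter Set

namespace Pool.Agent.RPQ

open Pool.Agent.RS
open Pool.Agent.MS (BA BB st pf gk Dk amk)

theorem WXN_ent (i j : Fin 2) : Continuous fun g : SL(2, ℝ) => g.1 i j :=
  continuous_subtype_val.matrix_elem i j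

theorem WXN_Bx (C η ε R : ℝ) : MeasurableSet (Bx C η ε R) := by
  have h : {k : SL(2, ℝ) | ∀ i j, |k.1 i j| ≤ 3} = ⋂ i, ⋂ j, {k : SL(2, ℝ) | |k.1 i j| ≤ 3} := by
    ext k
    simp only [mem_ofPred_eq, mem_iInter]
  have h1 : IsClosed {k : SL(2, ℝ) | ∀ i j, |k.1 i j| ≤ 3} := by
    rw [h]
    exact isClosed_iInter fun i => isClosed_iInter fun j => isClosed_le (WXN_ent i j).abs continuous_const
  have h2 : IsClosed (Bx C η ε R) :=
    h1.inter ((isClosed_le (WXN_ent 1 0).abs continuous_const).inter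
      ((isClosed_le (WXN_ent 0 1).abs continuous_const).inter
        (isClosed_le ((WXN_ent 0 0).sub (WXN_ent 1 1)).abs continuous_const)))
  exact h2.measurableSet

theorem WXN_mem (C η ε R : ℝ) (b : SL(2, ℝ)) (h : mj C η ε R b ≠ 0) : b ∈ Bx C η ε R := by
  by_contra hb
  exact h (indicator_of_notMem hb _)

theorem WXN_prod (R C' η ε : ℝ) (hR : 0 < R) (hC : 0 ≤ C') (l : List ℕ) :
    (l.map (fun n : ℕ => ENNReal.ofReal (C' * R ^ (((n : ℝ) + 1) / 16 + η + ((n : ℝ) + 1) * ε)))).prod =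
      ENNReal.ofReal (C' ^ l.length * R ^ ((nst l : ℝ) / 16 + (l.length : ℝ) * η + (nst l : ℝ) * ε)) := by
  induction l with
  | nil => simp [nst]
  | cons n l ih =>
    have h1 : (nst (n :: l) : ℝ) = ((n : ℝ) + 1) + nst l := by
      have : nst (n :: l) = (n + 1) + nst l := by
        unfold nst
        rw [List.map_cons, List.sum_cons]
      rw [this]
      push_cast
      ring
    rw [List.map_cons, List.prod_cons, ih, ← ENNReal.ofReal_mul (by positivity), h1]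
    apply congrArg
    have h2 : (((n :: l).length : ℕ) : ℝ) = (l.length : ℝ) + 1 := by
      rw [List.length_cons]
      push_cast
      ring
    rw [h2, List.length_cons, pow_succ]
    have h3 : (((n : ℝ) + 1) + (nst l : ℝ)) / 16 + ((l.length : ℝ) + 1) * η + (((n : ℝ) + 1) + (nst l : ℝ)) * ε =
      (((n : ℝ) + 1) / 16 + η + ((n : ℝ) + 1) * ε) + ((nst l : ℝ) / 16 + (l.length : ℝ) * η + (nst l : ℝ) * ε) := by
      ring
    have h4 : R ^ ((((n : ℝ) + 1) / 16 + η + ((n : ℝ) + 1) * ε) + ((nst l : ℝ) / 16 + (l.length : ℝ) * η + (nst l : ℝ) * ε)) =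
      R ^ (((n : ℝ) + 1) / 16 + η + ((n : ℝ) + 1) * ε) * R ^ ((nst l : ℝ) / 16 + (l.length : ℝ) * η + (nst l : ℝ) * ε) :=
      Real.rpow_add hR _ _
    rw [h3, h4]
    ring

theorem WXN_real (R C' C1 η ε θ B κ Kr : ℝ) (N L n : ℕ) (hR : 1 ≤ R) (hC' : 1 ≤ C') (hC1 : 1 ≤ C1) (_hη : 0 < η) (hε : 0 < ε)
    (hs : (L + 1) * η + 2 * N * ε ≤ 1 / 4) (hB : 0 ≤ B) (hθ : B + 5 ≤ (L + 1) * θ / 8) (hn : n + 1 ≤ N)
    (hK : Kr ≤ R ^ (1 / 8 : ℝ)) (hκ : κ ≤ R ^ (-(2 * (N : ℝ) + B + 10)))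
    (hR2 : 2 * (C' * C1) ^ (L + 1) ≤ R ^ (1 / 2 : ℝ)) :
    (Kr * (C' * R ^ (1 - ((n : ℝ) + 1) / 16 + η + (n : ℝ) * ε)) + κ * (C' * R ^ (((n : ℝ) + 1) / 16 + η + ((n : ℝ) + 1) * ε))) *
      (C' ^ L * R ^ (((n : ℝ) + 1) / 16 + (L : ℝ) * η + ((n : ℝ) + 1) * ε) * (C1 * R ^ (-(θ / 8))) ^ (L + 1)) ≤ R ^ (-(B + 3)) := by
  have hR0 : 0 < R := by linarith
  have hnN : (n : ℝ) + 1 ≤ N := by exact_mod_cast hn
  have hn0 : (0 : ℝ) ≤ n := by positivity
  have hL0 : (0 : ℝ) ≤ L := by positivity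
  have hNε : ((n : ℝ) + ((n : ℝ) + 1)) * ε ≤ 2 * N * ε := by nlinarith
  have hNε2 : (((n : ℝ) + 1) + ((n : ℝ) + 1)) * ε ≤ 2 * N * ε := by nlinarith
  obtain ⟨p1, hp1⟩ : ∃ p, p = R ^ (1 - ((n : ℝ) + 1) / 16 + η + (n : ℝ) * ε) := ⟨_, rfl⟩
  obtain ⟨p2, hp2⟩ : ∃ p, p = R ^ (((n : ℝ) + 1) / 16 + η + ((n : ℝ) + 1) * ε) := ⟨_, rfl⟩
  obtain ⟨p3, hp3⟩ : ∃ p, p = R ^ (((n : ℝ) + 1) / 16 + (L : ℝ) * η + ((n : ℝ) + 1) * ε) := ⟨_, rfl⟩
  have q1 : 0 < p1 := by rw [hp1]; positivity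
  have q2 : 0 < p2 := by rw [hp2]; positivity
  have q3 : 0 < p3 := by rw [hp3]; positivity
  have s1 : Kr * (p1 * p3) ≤ R ^ (11 / 8 : ℝ) := by
    have e1 : R ^ (1 / 8 : ℝ) * (p1 * p3) ≤ R ^ (11 / 8 : ℝ) := by
      rw [hp1, hp3, ← Real.rpow_add hR0, ← Real.rpow_add hR0]
      apply Real.rpow_le_rpow_of_exponent_le hR
      nlinarith
    exact le_trans (mul_le_mul_of_nonneg_right hK (by positivity)) e1
  have s2 : κ * (p2 * p3) ≤ R ^ (11 / 8 : ℝ) := by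
    have e1 : R ^ (-(2 * (N : ℝ) + B + 10)) * (p2 * p3) ≤ R ^ (11 / 8 : ℝ) := by
      rw [hp2, hp3, ← Real.rpow_add hR0, ← Real.rpow_add hR0]
      apply Real.rpow_le_rpow_of_exponent_le hR
      nlinarith
    exact le_trans (mul_le_mul_of_nonneg_right hκ (by positivity)) e1
  have s3 : (C1 * R ^ (-(θ / 8))) ^ (L + 1) ≤ C1 ^ (L + 1) * R ^ (-(B + 5)) := by
    rw [mul_pow]
    apply mul_le_mul_of_nonneg_left _ (by positivity)
    rw [← Real.rpow_natCast, ← Real.rpow_mul hR0.le]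
    apply Real.rpow_le_rpow_of_exponent_le hR
    push_cast
    nlinarith
  rw [← hp1, ← hp2, ← hp3]
  have e0 : (Kr * (C' * p1) + κ * (C' * p2)) * (C' ^ L * p3 * (C1 * R ^ (-(θ / 8))) ^ (L + 1)) =
      (C' ^ (L + 1) * (C1 * R ^ (-(θ / 8))) ^ (L + 1)) * (Kr * (p1 * p3) + κ * (p2 * p3)) := by
    rw [pow_succ C' L]
    ring
  rw [e0]
  have e1 : (C' ^ (L + 1) * (C1 * R ^ (-(θ / 8))) ^ (L + 1)) * (Kr * (p1 * p3) + κ * (p2 * p3)) ≤
      (C' ^ (L + 1) * (C1 * R ^ (-(θ / 8))) ^ (L + 1)) * (2 * R ^ (11 / 8 : ℝ)) := by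
    apply mul_le_mul_of_nonneg_left _ (by positivity)
    linarith
  refine e1.trans ?_
  have e2 : (C' ^ (L + 1) * (C1 * R ^ (-(θ / 8))) ^ (L + 1)) * (2 * R ^ (11 / 8 : ℝ)) ≤
      (C' ^ (L + 1) * (C1 ^ (L + 1) * R ^ (-(B + 5)))) * (2 * R ^ (11 / 8 : ℝ)) := by
    apply mul_le_mul_of_nonneg_right _ (by positivity)
    exact mul_le_mul_of_nonneg_left s3 (by positivity)
  refine e2.trans ?_
  have e3 : (C' ^ (L + 1) * (C1 ^ (L + 1) * R ^ (-(B + 5)))) * (2 * R ^ (11 / 8 : ℝ)) =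
      (2 * (C' * C1) ^ (L + 1)) * (R ^ (-(B + 5)) * R ^ (11 / 8 : ℝ)) := by
    rw [mul_pow]
    ring
  rw [e3, ← Real.rpow_add hR0]
  refine (mul_le_mul_of_nonneg_right hR2 (by positivity)).trans ?_
  rw [← Real.rpow_add hR0]
  apply Real.rpow_le_rpow_of_exponent_le hR
  linarith

theorem WXN_nst (l : List ℕ) : ∀ n ∈ l, n + 1 ≤ nst l := by
  induction l with
  | nil => intro n hn; exact absurd hn List.not_mem_nil
  | cons m l ih =>
    intro n hn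
    have h1 : nst (m :: l) = (m + 1) + nst l := by
      unfold nst
      rw [List.map_cons, List.sum_cons]
    rcases List.mem_cons.mp hn with h | h
    · rw [h, h1]
      omega
    · have := ih n h
      rw [h1]
      omega

theorem WXN_proof (hEHS : EHS_stmt) (hCHN : CHN_stmt) : WXN_stmt := by
  intro N L η ε θ B C1 C' hL hη hε hs hθ hB hC1 hC' hBθ
  have hCC : 1 ≤ (C' * C1) ^ (L + 1) := one_le_pow₀ (by nlinarith)
  refine ⟨(2 * (C' * C1) ^ (L + 1)) ^ 2, by nlinarith, ?_⟩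
  intro Γ F C R κ J nc K χ u A l hΓ hF hR0 hC hW
  have hR1 : 1 ≤ R := by nlinarith
  have hR : 0 < R := by linarith
  have hR2 : 2 * (C' * C1) ^ (L + 1) ≤ R ^ (1 / 2 : ℝ) := by
    rw [← Real.sqrt_eq_rpow]
    exact Real.le_sqrt_of_sq_le hR0
  have hl : l ≠ [] := by
    intro h
    have h1 := hW.len
    rw [h, List.length_nil] at h1
    omega
  have hnst : 9 ≤ nst l := by
    obtain ⟨n, hn⟩ := List.exists_mem_of_ne_nil l hl
    exact le_trans (hW.stp n hn) (WXN_nst l n hn)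
  obtain ⟨n, hn⟩ : ∃ n : ℕ, nst l = n + 1 := ⟨nst l - 1, by omega⟩
  have hnN : n + 1 ≤ N := by rw [← hn]; exact hW.sum
  have hn1 : nst l - 1 = n := by omega
  have hmj : ∀ b, mj C η ε R b ≤ ENNReal.ofReal (C * R ^ (15 / 16 + η)) := by
    intro b
    exact indicator_le_self' (fun _ _ => zero_le) b
  have hmeas : Measurable (mj C η ε R) := measurable_const.indicator (WXN_Bx C η ε R)
  have hu0 : ∀ b, u b ≠ 0 → b ∈ Bx C η ε R := by
    intro b hb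
    apply WXN_mem C η ε R b
    intro h0
    have h1 := hW.le b
    rw [h0] at h1
    apply hb
    exact enorm_eq_zero.mp (le_antisymm h1 zero_le)
  have hub : ∃ B : ℝ, ∀ b, ‖u b‖ ≤ B := by
    refine ⟨C * R ^ (15 / 16 + η), ?_⟩
    intro b
    have h1 := (hW.le b).trans (hmj b)
    rw [← ofReal_norm] at h1
    exact (ENNReal.ofReal_le_ofReal_iff (by positivity)).mp h1
  have h1 := hEHS Γ F J nc K χ κ (tau R) u (mj C η ε R) A l
    (ENNReal.ofReal (C' * R ^ (1 - ((n : ℝ) + 1) / 16 + η + (n : ℝ) * ε)))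
    (ENNReal.ofReal (C' * R ^ (((n : ℝ) + 1) / 16 + η + ((n : ℝ) + 1) * ε))) hΓ hF hW.inv hW.meas hub
    ⟨3, fun b hb => (hu0 b hb).1⟩ hW.measA hW.invA hl hmeas hW.le ENNReal.ofReal_ne_top (by
      intro g h
      rw [hn1]
      exact hW.mcv n (by omega) g h) (by
      intro g h
      rw [hn1]
      exact hW.blk n (by omega) (by omega) g h) (by
      intro g h b hb hp
      refine le_trans (Set.encard_le_encard ?_) (hW.cnt g h b (fun j hj => WXN_mem C η ε R _ (hb j hj)) hp)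
      rintro γ ⟨b', hb', hp', hU⟩
      exact ⟨b', fun j hj => WXN_mem C η ε R _ (hb' j hj), hp', hU⟩)
  have h2 := hCHN Γ F (tau R) (mj C η ε R) A l
    (fun n : ℕ => ENNReal.ofReal (C' * R ^ (((n : ℝ) + 1) / 16 + η + ((n : ℝ) + 1) * ε))) hΓ hF hmeas hW.measA hW.invA hl (by
      intro k hk g h
      have h3 := WXN_nst l k hk
      exact hW.blk k (hW.stp k hk) (by omega) g h)
  rw [WXN_prod R C' η ε hR (by linarith) l, hW.len, hn] at h2
  have h3 : mG (dG F ∩ A) ^ (L + 1) ≤ ENNReal.ofReal ((C1 * R ^ (-(θ / 8))) ^ (L + 1)) := by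
    rw [ENNReal.ofReal_pow (by positivity)]
    exact pow_le_pow_left₀ zero_le hW.volA _
  have h4 : (K : ENNReal) = ENNReal.ofReal (K : ℝ) := (ENNReal.ofReal_natCast K).symm
  refine h1.trans ?_
  rw [h4]
  have h5 : ∫⁻ g in dG F, ∫⁻ h, wdE (mj C η ε R) (tau R) A l g h ∂mG ∂mG ≤
      ENNReal.ofReal (C' ^ L * R ^ (((n : ℝ) + 1) / 16 + (L : ℝ) * η + ((n : ℝ) + 1) * ε) * (C1 * R ^ (-(θ / 8))) ^ (L + 1)) := by
    refine h2.trans ?_
    have h6 : (((n + 1 : ℕ) : ℝ)) = (n : ℝ) + 1 := by push_cast; ring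
    rw [h6]
    have hX : 0 ≤ C' ^ L * R ^ (((n : ℝ) + 1) / 16 + (L : ℝ) * η + ((n : ℝ) + 1) * ε) := by positivity
    refine (mul_le_mul' le_rfl h3).trans ?_
    rw [← ENNReal.ofReal_mul hX]
  refine (mul_le_mul' le_rfl h5).trans ?_
  rw [← ENNReal.ofReal_mul (by positivity), ← ENNReal.ofReal_mul (by positivity), ← ENNReal.ofReal_add (by positivity) (by positivity),
    ← ENNReal.ofReal_mul (by positivity)]
  apply ENNReal.ofReal_le_ofReal
  exact WXN_real R C' C1 η ε θ B _ _ N L n hR1 hC' hC1 hη hε hs hB hBθ hnN hW.K1 hW.nc1 hR2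

end Pool.Agent.RPQ
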